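import Pool.Agent.Lib.MP_8e2345_co.B4.Final
import Pool.Agent.Lib.MP_8e2345_co.B4.Ex

/-!
# Planar graphs of branchwidth at most four with distant triangles

A graph which is glued from single edges as discs with at most four corners, and whose triangles are at distance at least
`4` from each other, is 3-colourable; distance at least `3` is not sufficient.
-/

set_option autoImplicit false

namespace Pool.Agent.Results.MP_8e2345_co.PlanarBranchwidthFour

/-- `Disc H l`: the graph `H` is drawn in a disc, and `l` (one to four distinct vertices) is the list of its corners on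
the boundary of the disc, in their cyclic order; `H` is built from single edges as follows. A single edge is a disc with
two corners, the list of the corners may be turned, and corners may be forgotten. Two discs `A` and `B` without a common
edge, whose common vertices are all in the list `C`, are glued along `C`: the corners of `A` are `P ++ C`, those of `B`
are `C.reverse ++ Q`, and the corners of the union are `P`, then (or not) the first vertex of `C`, then `Q`, then (or
not) the last vertex of `C`; there must be between one and four of them. -/
inductive Disc {V : Type} : SimpleGraph V → List V → Prop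
  | edge (a b : V) : a ≠ b → Disc (SimpleGraph.edge a b) [a, b]
  | turn (H : SimpleGraph V) (a : V) (l : List V) : Disc H (a :: l) → Disc H (l ++ [a])
  | forget (H : SimpleGraph V) (l m : List V) : Disc H l → m.Sublist l → m ≠ [] → Disc H m
  | glue (A B : SimpleGraph V) (P C Q E F : List V) :
      Disc A (P ++ C) → Disc B (C.reverse ++ Q) → Disjoint A B →
      (∀ v ∈ A.support, v ∈ B.support → v ∈ C) →
      E.Sublist (C.take 1) → F.Sublist (C.reverse.take 1) →
      (P ++ E ++ Q ++ F).Nodup → P ++ E ++ Q ++ F ≠ [] → (P ++ E ++ Q ++ F).length ≤ 4 →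
      Disc (A ⊔ B) (P ++ E ++ Q ++ F)

/-- Any two distinct triangles are at distance at least `d` from each other. -/
def TrianglesApart {V : Type} (G : SimpleGraph V) (d : ℕ∞) : Prop :=
  ∀ A B : Finset V, G.IsNClique 3 A → G.IsNClique 3 B → A ≠ B →
    ∀ a ∈ A, ∀ b ∈ B, d ≤ G.edist a b

theorem disc_iff {V : Type} {G : SimpleGraph V} {l : List V} :
    Disc G l ↔ Pool.Agent.Lib.MP_8e2345_co.B4.Disc G l := by
  constructor
  · intro h
    induction h with
    | edge a b h => exact .edge a b h
    | turn H a l _ ih => exact .turn H a l ih
    | forget H l m _ h1 h2 ih => exact .forget H l m ih h1 h2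
    | glue A B P C Q E F _ _ h1 h2 h3 h4 h5 h6 h7 i1 i2 => exact .glue A B P C Q E F i1 i2 h1 h2 h3 h4 h5 h6 h7
  · intro h
    induction h with
    | edge a b h => exact .edge a b h
    | turn H a l _ ih => exact .turn H a l ih
    | forget H l m _ h1 h2 ih => exact .forget H l m ih h1 h2
    | glue A B P C Q E F _ _ h1 h2 h3 h4 h5 h6 h7 i1 i2 => exact .glue A B P C Q E F i1 i2 h1 h2 h3 h4 h5 h6 h7

/-- **Planar graphs of branchwidth at most four with distant triangles.** -/
theorem result :
    (∀ (V : Type) (G : SimpleGraph V) (l : List V), Disc G l → TrianglesApart G 4 → G.Colorable 3) ∧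
    ∃ (G : SimpleGraph (Fin 44)) (l : List (Fin 44)), Disc G l ∧ TrianglesApart G 3 ∧ ¬ G.Colorable 3 := by
  refine ⟨fun V G l h ha => Pool.Agent.Lib.MP_8e2345_co.B4.colorable_of_disc4 (disc_iff.1 h) ha, ?_⟩
  obtain ⟨G, l, h1, h2, h3⟩ := Pool.Agent.Lib.MP_8e2345_co.B4.Ex.example_44
  exact ⟨G, l, disc_iff.2 h1, h2, h3⟩

end Pool.Agent.Results.MP_8e2345_co.PlanarBranchwidthFour
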