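import Pool.Agent.Lib.MP_8e2345_co.ST.Step
import Pool.Agent.Lib.MP_8e2345_co.ST.Ex

/-!
# Planar graphs of treewidth at most three with distant triangles

A subgraph of a stacked triangulation whose triangles are at distance at least `3` from each other is 3-colourable, and
distance at least `2` is not sufficient.
-/

set_option autoImplicit false

namespace Pool.Agent.Results.MP_8e2345_co.PlanarTreewidthThree

/-- `Drawn G a b c S`: the set `S` of vertices of `G` is drawn in the triangle `a b c`, as in a stacked triangulation: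
`S` is empty, or a vertex `w` of `S` cuts the triangle `a b c` into the triangles `b c w`, `a c w`, `a b w`, the rest of
`S` consists of the sets `A`, `B`, `C` drawn in these triangles, and a vertex drawn in one of the three triangles has
neighbours only in it and at its corners. -/
inductive Drawn {V : Type} (G : SimpleGraph V) : V → V → V → Set V → Prop
  | empty (a b c : V) : Drawn G a b c ∅
  | cut (a b c w : V) (A B C : Set V) :
      Drawn G b c w A → Drawn G a c w B → Drawn G a b w C →
      List.Pairwise Disjoint [({a, b, c} : Set V), {w}, A, B, C] →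
      (∀ u ∈ A, ∀ v, G.Adj u v → v ∈ A ∪ {b, c, w}) →
      (∀ u ∈ B, ∀ v, G.Adj u v → v ∈ B ∪ {a, c, w}) →
      (∀ u ∈ C, ∀ v, G.Adj u v → v ∈ C ∪ {a, b, w}) →
      Drawn G a b c ({w} ∪ A ∪ B ∪ C)

/-- `G` is a subgraph of a stacked triangulation on its vertices: for some three vertices `a, b, c` all other vertices
are drawn in the triangle `a b c`. -/
def PartialStacked {V : Type} (G : SimpleGraph V) : Prop :=
  ∃ a b c : V, a ≠ b ∧ a ≠ c ∧ b ≠ c ∧ Drawn G a b c {v | v ≠ a ∧ v ≠ b ∧ v ≠ c}

/-- Any two distinct triangles are at distance at least `d` from each other. -/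
def TrianglesApart {V : Type} (G : SimpleGraph V) (d : ℕ∞) : Prop :=
  ∀ A B : Finset V, G.IsNClique 3 A → G.IsNClique 3 B → A ≠ B →
    ∀ a ∈ A, ∀ b ∈ B, d ≤ G.edist a b

theorem drawn_iff {V : Type} {G : SimpleGraph V} {a b c : V} {S : Set V} :
    Drawn G a b c S ↔ Pool.Agent.Lib.MP_8e2345_co.ST.Drawn G a b c S := by
  constructor
  · intro h
    induction h with
    | empty a b c => exact .empty a b c
    | cut a b c w A B C _ _ _ h1 h2 h3 h4 i1 i2 i3 => exact .cut a b c w A B C i1 i2 i3 h1 h2 h3 h4
  · intro h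
    induction h with
    | empty a b c => exact .empty a b c
    | cut a b c w A B C _ _ _ h1 h2 h3 h4 i1 i2 i3 => exact .cut a b c w A B C i1 i2 i3 h1 h2 h3 h4

theorem partialStacked_iff {V : Type} {G : SimpleGraph V} :
    PartialStacked G ↔ Pool.Agent.Lib.MP_8e2345_co.ST.PartialStacked G := by
  constructor
  · rintro ⟨a, b, c, h1, h2, h3, h⟩
    exact ⟨a, b, c, h1, h2, h3, drawn_iff.1 h⟩
  · rintro ⟨a, b, c, h1, h2, h3, h⟩
    exact ⟨a, b, c, h1, h2, h3, drawn_iff.2 h⟩

/-- **Planar graphs of treewidth at most three with distant triangles.** -/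
theorem result :
    (∀ (V : Type) (G : SimpleGraph V), PartialStacked G → TrianglesApart G 3 → G.Colorable 3) ∧
    ∃ G : SimpleGraph (Fin 28), PartialStacked G ∧ TrianglesApart G 2 ∧ ¬ G.Colorable 3 :=
  ⟨fun _ _ hG h => Pool.Agent.Lib.MP_8e2345_co.ST.colorable_of_partialStacked (partialStacked_iff.1 hG) h,
    Pool.Agent.Lib.MP_8e2345_co.ST.G28,
    partialStacked_iff.2 Pool.Agent.Lib.MP_8e2345_co.ST.partialStacked,
    Pool.Agent.Lib.MP_8e2345_co.ST.apart, Pool.Agent.Lib.MP_8e2345_co.ST.not_colorable⟩

end Pool.Agent.Results.MP_8e2345_co.PlanarTreewidthThree
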