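import Pool.Agent.Lib.MP_8e2345_co.NB.ExtSplit
import Pool.Agent.Lib.MP_8e2345_co.NB.Example

/-!
# Planar graphs with distant triangles and two colours near the triangles

If the triangles are at distance at least `4` from each other, then a 3-colouring of the graph without (some of) the
triangles which uses only two colours near each of them can be turned into a 3-colouring of the graph. In particular the
graph is 3-colourable if it becomes bipartite when its triangles are deleted; here distance `3` is not enough.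
-/

set_option autoImplicit false

namespace Pool.Agent.Results.MP_8e2345_co.TwoColoursNearTriangles

/-- `H` is a minor of `G`: there are pairwise disjoint connected (so nonempty) sets of vertices of `G`, one for each
vertex of `H`, such that for adjacent vertices of `H` the two sets are joined by an edge of `G`. -/
def HasMinor {W V : Type} (H : SimpleGraph W) (G : SimpleGraph V) : Prop :=
  ∃ μ : W → Set V, (∀ w, (G.induce (μ w)).Connected) ∧
    (∀ w w', w ≠ w' → Disjoint (μ w) (μ w')) ∧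
    ∀ w w', H.Adj w w' → ∃ u ∈ μ w, ∃ v ∈ μ w', G.Adj u v

/-- Planarity in the form of Wagner's theorem: `G` has no `K₅` minor and no `K₃,₃` minor. -/
def WagnerPlanar {V : Type} (G : SimpleGraph V) : Prop :=
  ¬ HasMinor (⊤ : SimpleGraph (Fin 5)) G ∧ ¬ HasMinor (completeBipartiteGraph (Fin 3) (Fin 3)) G

/-- Planarity by a drawing, as in the problem: distinct points for the vertices, simple arcs for the edges, which contain
no further vertices and do not cross. -/
def Drawable {V : Type} (G : SimpleGraph V) : Prop :=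
  ∃ p : V → ℝ × ℝ, Function.Injective p ∧
    ∃ γ : V → V → ℝ → ℝ × ℝ,
      (∀ u v, G.Adj u v →
          ContinuousOn (γ u v) (Set.Icc 0 1) ∧
          γ u v 0 = p u ∧ γ u v 1 = p v ∧
          Set.InjOn (γ u v) (Set.Icc 0 1) ∧
          ∀ z, p z ∉ γ u v '' Set.Ioo 0 1) ∧
      (∀ u v w x, G.Adj u v → G.Adj w x → s(u, v) ≠ s(w, x) →
          Disjoint (γ u v '' Set.Ioo 0 1) (γ w x '' Set.Ioo 0 1))

/-- Any two distinct triangles are at distance at least `d` from each other. -/
def TrianglesApart {V : Type} (G : SimpleGraph V) (d : ℕ∞) : Prop :=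
  ∀ A B : Finset V, G.IsNClique 3 A → G.IsNClique 3 B → A ≠ B →
    ∀ a ∈ A, ∀ b ∈ B, d ≤ G.edist a b

/-- `ψ` is a proper 3-colouring of `G` without the vertices of the triangles in `𝒯`. -/
def ColoursOff {V : Type} (G : SimpleGraph V) (𝒯 : Set (Finset V)) (ψ : V → Fin 3) : Prop :=
  ∀ u v, G.Adj u v → (∀ T ∈ 𝒯, u ∉ T ∧ v ∉ T) → ψ u ≠ ψ v

/-- Near each triangle `T` in `𝒯` only two colours are used: there is a colour `γ`, which may depend on `T`, such that no
vertex outside of `T` at distance at most `2` from `T` has colour `γ`. -/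
def TwoNear {V : Type} (G : SimpleGraph V) (𝒯 : Set (Finset V)) (ψ : V → Fin 3) : Prop :=
  ∀ T ∈ 𝒯, ∃ γ : Fin 3, ∀ v, v ∉ T → (∃ t ∈ T, G.edist t v ≤ 2) → ψ v ≠ γ

/-- `G` becomes bipartite when the vertices of `I` and the vertices of all triangles are deleted. -/
def BipartiteOff {V : Type} (G : SimpleGraph V) (I : Set V) : Prop :=
  (G.induce {v | v ∉ I ∧ ∀ T : Finset V, G.IsNClique 3 T → v ∉ T}).Colorable 2

/-- The special case of a bipartite rest, up to an independent set which is not near the triangles. -/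
theorem bipartite_case {V : Type} {G : SimpleGraph V} (I : Set V)
    (hI : ∀ x ∈ I, ∀ y ∈ I, ¬ G.Adj x y)
    (hI3 : ∀ x ∈ I, ∀ T : Finset V, G.IsNClique 3 T → ∀ t ∈ T, (3 : ℕ∞) ≤ G.edist x t)
    (hb : BipartiteOff G I) :
    ∃ ψ : V → Fin 3, ColoursOff G {T | G.IsNClique 3 T} ψ ∧ TwoNear G {T | G.IsNClique 3 T} ψ := by
  classical
  obtain ⟨C⟩ := hb
  let ψ : V → Fin 3 := fun v => if v ∈ I then 2 else
    if h : v ∈ {v | v ∉ I ∧ ∀ T : Finset V, G.IsNClique 3 T → v ∉ T} then
      (if C ⟨v, h⟩ = 1 then 1 else 0) else 0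
  have e1 : ∀ v, v ∈ I → ψ v = 2 := fun v h => if_pos h
  have e2 : ∀ v, v ∉ I → ψ v ≠ 2 := by
    intro v h
    simp only [ψ, if_neg h]
    split_ifs <;> decide
  refine ⟨ψ, ?_, ?_⟩
  · intro u v huv hT
    by_cases hu : u ∈ I
    · rw [e1 u hu]
      exact (e2 v fun h => hI u hu v h huv).symm
    · by_cases hv : v ∈ I
      · rw [e1 v hv]
        exact e2 u hu
      · have h1 : u ∈ {v | v ∉ I ∧ ∀ T : Finset V, G.IsNClique 3 T → v ∉ T} :=
          ⟨hu, fun T hT' => (hT T hT').1⟩
        have h2 : v ∈ {v | v ∉ I ∧ ∀ T : Finset V, G.IsNClique 3 T → v ∉ T} :=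
          ⟨hv, fun T hT' => (hT T hT').2⟩
        have h3 : C ⟨u, h1⟩ ≠ C ⟨v, h2⟩ := C.valid (show (G.induce _).Adj ⟨u, h1⟩ ⟨v, h2⟩ from huv)
        simp only [ψ, if_neg hu, if_neg hv, dif_pos h1, dif_pos h2]
        have e : ∀ a b : Fin 2, a ≠ b →
            (if a = 1 then (1 : Fin 3) else 0) ≠ (if b = 1 then (1 : Fin 3) else 0) := by decide
        exact e _ _ h3
  · intro T hT
    refine ⟨2, ?_⟩
    rintro v hv ⟨t, ht, hd⟩
    refine e2 v fun hvI => ?_
    have h1 := hI3 v hvI T hT t ht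
    rw [SimpleGraph.edist_comm] at h1
    exact absurd (h1.trans hd) (by decide)

/-- **Two colours near the triangles.** -/
theorem result :
    (∀ (V : Type) [Fintype V] (G : SimpleGraph V), WagnerPlanar G → TrianglesApart G 4 →
      (∀ 𝒯 : Set (Finset V), (∀ T ∈ 𝒯, G.IsNClique 3 T) →
        (∃ ψ : V → Fin 3, ColoursOff G 𝒯 ψ ∧ TwoNear G 𝒯 ψ) → G.Colorable 3) ∧
      ∀ I : Set V, (∀ x ∈ I, ∀ y ∈ I, ¬ G.Adj x y) →
        (∀ x ∈ I, ∀ T : Finset V, G.IsNClique 3 T → ∀ t ∈ T, (3 : ℕ∞) ≤ G.edist x t) →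
        BipartiteOff G I → G.Colorable 3) ∧
    ∃ G : SimpleGraph (Fin 44), Drawable G ∧ TrianglesApart G 3 ∧ BipartiteOff G ∅ ∧
      ¬ G.Colorable 3 := by
  refine ⟨fun V _ G hG h4 => ⟨fun 𝒯 h𝒯 hψ => ?_, fun I hI hI3 hb => ?_⟩,
    Pool.Agent.HavelNB.G44.G, Pool.Agent.HavelNB.G44.drawable, Pool.Agent.HavelNB.G44.far,
    Pool.Agent.HavelNB.G44.bip ∅, Pool.Agent.HavelNB.G44.not_col⟩
  · obtain ⟨ψ, h1, h2⟩ := hψ
    exact Pool.Agent.HavelNB.colorable_two_near hG h4 𝒯 h𝒯 ψ h1 h2
  · obtain ⟨ψ, h1, h2⟩ := bipartite_case I hI hI3 hb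
    exact Pool.Agent.HavelNB.colorable_two_near hG h4 {T | G.IsNClique 3 T} (fun _ h => h) ψ h1 h2

end Pool.Agent.Results.MP_8e2345_co.TwoColoursNearTriangles
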